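import Mathlib

namespace Pool.Agent.Results.MP_0dac36_co.DegreeGame

open Finset

/-! ## The degree game -/

/-- The degree of the vertex `v` in the graph whose edge set is `M`. -/
def deg {V : Type*} [DecidableEq V] (M : Finset (Sym2 V)) (v : V) : ℕ :=
  (M.filter (fun e => v ∈ e)).card

/-- `Forces G d t M B`: in the degree game on `G`, in the position where Maker owns the edges `M`,
Breaker owns the edges `B`, and Maker is to move if `t` is true and Breaker is to move if `t` is
false, Maker can guarantee (whatever Breaker does) that, once every edge of `G` is claimed, some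
vertex has degree at least `d` in his graph. -/
inductive Forces {V : Type*} [DecidableEq V] (G : SimpleGraph V) (d : ℕ) :
    Bool → Finset (Sym2 V) → Finset (Sym2 V) → Prop
  /-- The game is over (all edges are claimed) and some vertex has degree at least `d`. -/
  | finished (t : Bool) (M B : Finset (Sym2 V)) :
      (∀ e ∈ G.edgeSet, e ∈ M ∪ B) → (∃ v, d ≤ deg M v) → Forces G d t M B
  /-- Maker moves: some unclaimed edge leads to a winning position. -/
  | maker (M B : Finset (Sym2 V)) (e : Sym2 V) :
      e ∈ G.edgeSet → e ∉ M ∪ B → Forces G d false (insert e M) B → Forces G d true M B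
  /-- Breaker moves: there is an unclaimed edge, and all of them lead to winning positions. -/
  | breaker (M B : Finset (Sym2 V)) :
      (∃ e ∈ G.edgeSet, e ∉ M ∪ B) →
      (∀ e ∈ G.edgeSet, e ∉ M ∪ B → Forces G d true M (insert e B)) → Forces G d false M B

/-- `D G` is the largest `d` such that Maker, who moves first, can guarantee a vertex of degree
at least `d` in his graph. -/
noncomputable def D {V : Type*} [DecidableEq V] (G : SimpleGraph V) : ℕ :=
  sSup {d : ℕ | Forces G d true ∅ ∅}

/-- The set of all numbers `D G` with `G` an `n`-regular graph on a finite nonempty set. -/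
def values (n : ℕ) : Set ℕ :=
  {k | ∃ (V : Type) (_ : Fintype V) (_ : DecidableEq V) (_ : Nonempty V) (G : SimpleGraph V)
    (_ : DecidableRel G.Adj), G.IsRegularOfDegree n ∧ D G = k}

/-- The function `f` of the problem: the supremum of `D G` over all finite `n`-regular `G`. -/
noncomputable def f (n : ℕ) : ℕ := sSup (values n)

/-! ## The Shearer region -/

section Shearer

variable {V : Type*} [Fintype V] [DecidableEq V] (G : SimpleGraph V)

/-- No two elements of `I` are adjacent in `G`. -/
def Indep (I : Finset V) : Prop := ∀ a ∈ I, ∀ b ∈ I, ¬ G.Adj a b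

open Classical in
/-- The independence polynomial of `G` induced on `W` with weights `-f`. -/
noncomputable def Q (f : V → ℝ) (W : Finset V) : ℝ :=
  ∑ I ∈ W.powerset, if Indep G I then ∏ v ∈ I, (- f v) else 0

open Classical in
/-- The set of neighbours. -/
noncomputable def nb (v : V) : Finset V := univ.filter (fun u => G.Adj v u)

lemma mem_nb (v u : V) : u ∈ nb G v ↔ G.Adj v u := by
  classical
  simp [nb]

lemma Q_empty (f : V → ℝ) : Q G f ∅ = 1 := by
  classical
  simp [Q, Indep]

lemma Q_insert (f : V → ℝ) {v : V} {W : Finset V} (hv : v ∉ W) :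
    Q G f (insert v W) = Q G f W - f v * Q G f (W \ nb G v) := by
  classical
  unfold Q
  rw [Finset.sum_powerset_insert hv]
  have h : ∑ t ∈ W.powerset, (if Indep G (insert v t) then ∏ u ∈ insert v t, (- f u) else 0)
      = - (f v * ∑ t ∈ (W \ nb G v).powerset, if Indep G t then ∏ u ∈ t, (- f u) else 0) := by
    rw [Finset.mul_sum, ← Finset.sum_neg_distrib]
    symm
    have hsub : (W \ nb G v).powerset ⊆ W.powerset :=
      Finset.powerset_mono.2 Finset.sdiff_subset
    rw [← Finset.sum_subset hsub (f := fun t => if Indep G (insert v t) then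
      ∏ u ∈ insert v t, (- f u) else 0)]
    · apply Finset.sum_congr rfl
      intro t ht
      have ht' := Finset.mem_powerset.1 ht
      have hvt : v ∉ t := fun h => hv (Finset.mem_sdiff.1 (ht' h)).1
      have hiff : Indep G (insert v t) ↔ Indep G t := by
        constructor
        · intro h a ha b hb
          exact h a (Finset.mem_insert_of_mem ha) b (Finset.mem_insert_of_mem hb)
        · intro h a ha b hb
          rcases Finset.mem_insert.1 ha with ha | ha
          · rcases Finset.mem_insert.1 hb with hb | hb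
            · rw [ha, hb]
              exact G.loopless.irrefl _
            · intro hab
              rw [ha] at hab
              exact (Finset.mem_sdiff.1 (ht' hb)).2 ((mem_nb G _ _).2 hab)
          · rcases Finset.mem_insert.1 hb with hb | hb
            · intro hab
              rw [hb] at hab
              exact (Finset.mem_sdiff.1 (ht' ha)).2 ((mem_nb G _ _).2 hab.symm)
            · exact h a ha b hb
      by_cases hI : Indep G t
      · rw [if_pos hI, if_pos (hiff.2 hI), Finset.prod_insert hvt]
        ring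
      · rw [if_neg hI, if_neg (fun h => hI (hiff.1 h))]
        ring
    · intro t ht hnt
      rw [if_neg]
      intro hI
      apply hnt
      rw [Finset.mem_powerset] at ht ⊢
      intro u hu
      rw [Finset.mem_sdiff]
      refine ⟨ht hu, fun h => ?_⟩
      exact hI v (Finset.mem_insert_self _ _) u (Finset.mem_insert_of_mem hu) ((mem_nb G _ _).1 h)
  rw [h]
  ring

lemma Q_congr {f g : V → ℝ} {W : Finset V} (h : ∀ v ∈ W, f v = g v) : Q G f W = Q G g W := by
  classical
  unfold Q
  apply Finset.sum_congr rfl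
  intro t ht
  rw [Finset.mem_powerset] at ht
  split_ifs
  · apply Finset.prod_congr rfl
    intro v hv
    rw [h v (ht hv)]
  · rfl

/-- The Shearer region of `G`. -/
def R (f : V → ℝ) : Prop := ∀ W : Finset V, 0 < Q G f W

/-- Erasing form of the recurrence. -/
lemma Q_erase (f : V → ℝ) {v : V} {W : Finset V} (hv : v ∈ W) :
    Q G f W = Q G f (W.erase v) - f v * Q G f (W.erase v \ nb G v) := by
  have h := Q_insert G f (v := v) (W := W.erase v) (Finset.notMem_erase v W)
  rwa [Finset.insert_erase hv] at h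

lemma Q_insert_le {f : V → ℝ} (hf : ∀ v, 0 ≤ f v) (hR : R G f) (v : V) (W : Finset V) :
    Q G f (insert v W) ≤ Q G f W := by
  by_cases hv : v ∈ W
  · rw [Finset.insert_eq_of_mem hv]
  · rw [Q_insert G f hv]
    have h3 := mul_nonneg (hf v) (hR (W \ nb G v)).le
    linarith

lemma Q_anti {f : V → ℝ} (hf : ∀ v, 0 ≤ f v) (hR : R G f) {W U : Finset V} (h : W ⊆ U) :
    Q G f U ≤ Q G f W := by
  have key : ∀ T : Finset V, Q G f (W ∪ T) ≤ Q G f W := by
    intro T
    induction T using Finset.induction_on with
    | empty => simp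
    | insert v T hv ih =>
      rw [Finset.union_insert]
      exact (Q_insert_le G hf hR v _).trans ih
  have := key U
  rwa [Finset.union_eq_right.2 h] at this

lemma Q_submod {f : V → ℝ} (hf : ∀ v, 0 ≤ f v) (hR : R G f) (n : ℕ) :
    ∀ A B : Finset V, (A ∪ B).card ≤ n →
      Q G f (A ∪ B) * Q G f (A ∩ B) ≤ Q G f A * Q G f B := by
  induction n with
  | zero =>
    intro A B h
    have h0 : A ∪ B = ∅ := Finset.card_eq_zero.1 (Nat.le_zero.1 h)
    have hA : A = ∅ := Finset.subset_empty.1 (h0 ▸ Finset.subset_union_left)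
    have hB : B = ∅ := Finset.subset_empty.1 (h0 ▸ Finset.subset_union_right)
    subst hA hB
    simp
  | succ n ih =>
    intro A B h
    by_cases hAB : A ⊆ B
    · rw [Finset.union_eq_right.2 hAB, Finset.inter_eq_left.2 hAB, mul_comm]
    · obtain ⟨v, hvA, hvB⟩ := Finset.not_subset.1 hAB
      set A' := A.erase v with hA'
      have hvA' : v ∉ A' := Finset.notMem_erase v A
      have hvU : v ∉ A' ∪ B := by
        rw [Finset.mem_union]
        tauto
      have hAeq : A = insert v A' := (Finset.insert_erase hvA).symm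
      have hU : A ∪ B = insert v (A' ∪ B) := by
        rw [hAeq, Finset.insert_union]
      have hI : A ∩ B = A' ∩ B := by
        rw [hAeq, Finset.insert_inter_of_notMem hvB]
      have hcard : (A' ∪ B).card ≤ n := by
        rw [hU, Finset.card_insert_of_notMem hvU] at h
        omega
      have h1 := ih A' B hcard
      have hsub : A' ∪ ((A' ∪ B) \ nb G v) ⊆ A' ∪ B :=
        Finset.union_subset Finset.subset_union_left Finset.sdiff_subset
      have h2 := ih A' ((A' ∪ B) \ nb G v) ((Finset.card_le_card hsub).trans hcard)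
      have hI2 : A' ∩ ((A' ∪ B) \ nb G v) = A' \ nb G v := by
        ext x
        simp only [Finset.mem_inter, Finset.mem_sdiff, Finset.mem_union]
        tauto
      rw [hI2] at h2
      have h3 := Q_anti G hf hR hsub
      rw [hU, hI, Q_insert G f hvU, hAeq, Q_insert G f hvA']
      have pU := hR (A' ∪ B)
      have pA' := hR A'
      have pI := hR (A' ∩ B)
      have pB := hR B
      have pAn := hR (A' \ nb G v)
      have pUn := hR ((A' ∪ B) \ nb G v)
      have pA : 0 < Q G f A' - f v * Q G f (A' \ nb G v) := by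
        rw [← Q_insert G f hvA']
        exact hR _
      have h4 : Q G f (A' ∪ B) * Q G f (A' \ nb G v)
          ≤ Q G f A' * Q G f ((A' ∪ B) \ nb G v) :=
        (mul_le_mul_of_nonneg_right h3 pAn.le).trans h2
      have h5 : Q G f A' * (Q G f (A' ∪ B) - f v * Q G f ((A' ∪ B) \ nb G v))
          ≤ Q G f (A' ∪ B) * (Q G f A' - f v * Q G f (A' \ nb G v)) := by
        have := mul_le_mul_of_nonneg_left h4 (hf v)
        nlinarith
      apply le_of_mul_le_mul_left _ pA'
      calc Q G f A' * ((Q G f (A' ∪ B) - f v * Q G f ((A' ∪ B) \ nb G v)) * Q G f (A' ∩ B))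
          = (Q G f A' * (Q G f (A' ∪ B) - f v * Q G f ((A' ∪ B) \ nb G v)))
              * Q G f (A' ∩ B) := by ring
        _ ≤ (Q G f (A' ∪ B) * (Q G f A' - f v * Q G f (A' \ nb G v))) * Q G f (A' ∩ B) :=
            mul_le_mul_of_nonneg_right h5 pI.le
        _ = (Q G f (A' ∪ B) * Q G f (A' ∩ B)) * (Q G f A' - f v * Q G f (A' \ nb G v)) := by
            ring
        _ ≤ (Q G f A' * Q G f B) * (Q G f A' - f v * Q G f (A' \ nb G v)) :=
            mul_le_mul_of_nonneg_right h1 pA.le
        _ = _ := by ring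

lemma Q_ratio {f : V → ℝ} (hf : ∀ v, 0 ≤ f v) (hR : R G f) {W U : Finset V} (h : W ⊆ U)
    (X : Finset V) : Q G f (W \ X) * Q G f U ≤ Q G f (U \ X) * Q G f W := by
  have h1 := Q_submod G hf hR _ W (U \ X) le_rfl
  have hI : W ∩ (U \ X) = W \ X := by
    ext x
    simp only [Finset.mem_inter, Finset.mem_sdiff]
    constructor
    · tauto
    · intro hx
      exact ⟨hx.1, h hx.1, hx.2⟩
  have hsub : W ∪ (U \ X) ⊆ U := Finset.union_subset h Finset.sdiff_subset
  have h2 := Q_anti G hf hR hsub
  rw [hI] at h1
  have h3 := mul_le_mul_of_nonneg_right h2 (hR (W \ X)).le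
  linarith [mul_comm (Q G f (W \ X)) (Q G f U), mul_comm (Q G f W) (Q G f (U \ X))]

lemma R_update {f : V → ℝ} (hR : R G f) (v : V) {t : ℝ} (ht : t ≤ f v) :
    R G (Function.update f v t) := by
  intro W
  by_cases hv : v ∈ W
  · rw [Q_erase G _ hv, Function.update_self]
    have e1 : Q G (Function.update f v t) (W.erase v) = Q G f (W.erase v) := by
      apply Q_congr
      intro u hu
      rw [Function.update_of_ne (Finset.ne_of_mem_erase hu)]
    have e2 : Q G (Function.update f v t) (W.erase v \ nb G v) = Q G f (W.erase v \ nb G v) := by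
      apply Q_congr
      intro u hu
      rw [Function.update_of_ne (Finset.ne_of_mem_erase (Finset.mem_sdiff.1 hu).1)]
    rw [e1, e2]
    have h1 := hR W
    rw [Q_erase G _ hv] at h1
    have h2 := mul_le_mul_of_nonneg_right ht (hR (W.erase v \ nb G v)).le
    linarith
  · have e1 : Q G (Function.update f v t) W = Q G f W := by
      apply Q_congr
      intro u hu
      have hne : u ≠ v := by
        intro h
        rw [h] at hu
        exact hv hu
      rw [Function.update_of_ne hne]
    rw [e1]
    exact hR W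

lemma R_mono {f g : V → ℝ} (hR : R G f) (hg : ∀ v, g v ≤ f v) : R G g := by
  have key : ∀ S : Finset V, R G (S.piecewise g f) := by
    intro S
    induction S using Finset.induction_on with
    | empty => rwa [Finset.piecewise_empty]
    | insert v S hv ih =>
      rw [Finset.piecewise_insert]
      apply R_update G ih
      rw [Finset.piecewise_eq_of_notMem _ _ _ hv]
      exact hg v
  have := key Finset.univ
  rwa [Finset.piecewise_univ] at this

lemma Q_two (f g : V → ℝ) {a b : V} (hab : G.Adj a b)
    (hfg : ∀ v, v ≠ a → v ≠ b → g v = f v) (W : Finset V) :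
    Q G g W = Q G f ((W.erase a).erase b)
      - (if a ∈ W then g a else 0) * Q G f ((W.erase a).erase b \ nb G a)
      - (if b ∈ W then g b else 0) * Q G f ((W.erase a).erase b \ nb G b) := by
  have hne : a ≠ b := hab.ne
  have hba : b ∈ nb G a := (mem_nb G a b).2 hab
  have c0 : Q G g ((W.erase a).erase b) = Q G f ((W.erase a).erase b) := by
    apply Q_congr
    intro v hv
    rw [Finset.mem_erase, Finset.mem_erase] at hv
    exact hfg v hv.2.1 hv.1
  have c1 : ∀ X, Q G g ((W.erase a).erase b \ X) = Q G f ((W.erase a).erase b \ X) := by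
    intro X
    apply Q_congr
    intro v hv
    rw [Finset.mem_sdiff, Finset.mem_erase, Finset.mem_erase] at hv
    exact hfg v hv.1.2.1 hv.1.1
  have hb : Q G g (W.erase a) = Q G f ((W.erase a).erase b)
      - (if b ∈ W then g b else 0) * Q G f ((W.erase a).erase b \ nb G b) := by
    by_cases hbW : b ∈ W
    · have : b ∈ W.erase a := Finset.mem_erase.2 ⟨hne.symm, hbW⟩
      rw [Q_erase G g this, if_pos hbW, c0, c1]
    · rw [if_neg hbW, ← c0, Finset.erase_eq_of_notMem (fun h => hbW (Finset.mem_of_mem_erase h))]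
      ring
  have hs : (W.erase a) \ nb G a = (W.erase a).erase b \ nb G a := by
    ext x
    simp only [Finset.mem_sdiff, Finset.mem_erase]
    constructor
    · rintro ⟨h1, h2⟩
      exact ⟨⟨fun h => h2 (h ▸ hba), h1⟩, h2⟩
    · rintro ⟨⟨_, h1⟩, h2⟩
      exact ⟨h1, h2⟩
  by_cases haW : a ∈ W
  · rw [Q_erase G g haW, if_pos haW, hb, hs, c1]
    ring
  · rw [if_neg haW]
    have : W.erase a = W := Finset.erase_eq_of_notMem haW
    rw [this] at hb ⊢
    rw [hb]
    ring

lemma R_step {f g₁ g₂ : V → ℝ} (hf : ∀ v, 0 ≤ f v) (hR : R G f) {a b : V} (hab : G.Adj a b)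
    (h1 : ∀ v, v ≠ a → v ≠ b → g₁ v = f v) (h2 : ∀ v, v ≠ a → v ≠ b → g₂ v = f v)
    (p1a : 0 ≤ g₁ a) (p1b : 0 ≤ g₁ b) (p2a : 0 ≤ g₂ a) (p2b : 0 ≤ g₂ b)
    (ha : g₁ a + g₂ a ≤ 2 * f a) (hb : g₁ b + g₂ b ≤ 2 * f b) : R G g₁ ∨ R G g₂ := by
  set V0 : Finset V := (Finset.univ.erase a).erase b with hV0
  have hq := hR V0
  have hα := hR (V0 \ nb G a)
  have hβ := hR (V0 \ nb G b)
  have hone : ∀ g : V → ℝ, (∀ v, v ≠ a → v ≠ b → g v = f v) → 0 ≤ g a → 0 ≤ g b →
      0 < Q G f V0 - g a * Q G f (V0 \ nb G a) - g b * Q G f (V0 \ nb G b) → R G g := by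
    intro g hg pa pb hpos W
    rw [Q_two G f g hab hg W]
    set W0 : Finset V := (W.erase a).erase b with hW0
    have hsub : W0 ⊆ V0 := Finset.erase_subset_erase _ (Finset.erase_subset_erase _
      (Finset.subset_univ _))
    have r1 := Q_ratio G hf hR hsub (nb G a)
    have r2 := Q_ratio G hf hR hsub (nb G b)
    have hW := hR W0
    have ia : (if a ∈ W then g a else 0) ≤ g a := by split_ifs <;> simp [pa]
    have ib : (if b ∈ W then g b else 0) ≤ g b := by split_ifs <;> simp [pb]
    have j1 := mul_le_mul_of_nonneg_right ia (hR (W0 \ nb G a)).le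
    have j2 := mul_le_mul_of_nonneg_right ib (hR (W0 \ nb G b)).le
    have k1 := mul_le_mul_of_nonneg_left r1 pa
    have k2 := mul_le_mul_of_nonneg_left r2 pb
    have hkey : 0 < Q G f V0 * (Q G f W0 - g a * Q G f (W0 \ nb G a)
        - g b * Q G f (W0 \ nb G b)) := by
      have h3 := mul_pos hpos hW
      nlinarith
    have h4 := (mul_pos_iff_of_pos_left hq).1 hkey
    linarith
  have hfpos : 0 < Q G f V0 - f a * Q G f (V0 \ nb G a) - f b * Q G f (V0 \ nb G b) := by
    have := hR Finset.univ
    rw [Q_two G f f hab (fun _ _ _ => rfl) Finset.univ, if_pos (Finset.mem_univ _),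
      if_pos (Finset.mem_univ _)] at this
    exact this
  by_cases hc : 0 < Q G f V0 - g₁ a * Q G f (V0 \ nb G a) - g₁ b * Q G f (V0 \ nb G b)
  · exact Or.inl (hone g₁ h1 p1a p1b hc)
  · right
    apply hone g₂ h2 p2a p2b
    have k1 := mul_le_mul_of_nonneg_right ha hα.le
    have k2 := mul_le_mul_of_nonneg_right hb hβ.le
    nlinarith

lemma R_init {n : ℕ} (hn : 1 ≤ n) {f : V → ℝ}
    (hf' : ∀ v, f v ≤ 1 / (4 * n)) (hdeg : ∀ v, (nb G v).card ≤ n) : R G f := by
  have hn' : (1:ℝ) ≤ n := by exact_mod_cast hn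
  set r : ℝ := 1 - 1 / (2 * n) with hr
  have hr1 : r ≤ 1 := by
    have : 0 ≤ 1 / (2 * (n:ℝ)) := by positivity
    linarith
  have hr2 : 1 / 2 ≤ r := by
    have : 1 / (2 * (n:ℝ)) ≤ 1 / 2 := by
      rw [div_le_div_iff₀ (by positivity) (by norm_num)]
      linarith
    linarith
  have hr0 : 0 < r := by linarith
  have hrn : 1 / 2 ≤ r ^ n := by
    have h := one_add_mul_le_pow (a := -(1 / (2 * (n:ℝ)))) (by linarith) n
    have e1 : 1 + (n:ℝ) * -(1 / (2 * (n:ℝ))) = 1 / 2 := by
      field_simp
      ring
    have e2 : 1 + -(1 / (2 * (n:ℝ))) = r := by rw [hr]; ring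
    rw [e1, e2] at h
    exact h
  have main : ∀ m : ℕ, ∀ W : Finset V, W.card ≤ m →
      0 < Q G f W ∧ ∀ v ∈ W, r * Q G f (W.erase v) ≤ Q G f W := by
    intro m
    induction m with
    | zero =>
      intro W hW
      have : W = ∅ := Finset.card_eq_zero.1 (Nat.le_zero.1 hW)
      subst this
      rw [Q_empty]
      simp
    | succ m ih =>
      intro W hW
      have hstep : ∀ v ∈ W, 0 < Q G f (W.erase v) ∧ r * Q G f (W.erase v) ≤ Q G f W := by
        intro v hv
        have hc : (W.erase v).card ≤ m := by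
          rw [Finset.card_erase_of_mem hv]
          omega
        set W' := W.erase v with hW'
        have hpos := (ih W' hc).1
        refine ⟨hpos, ?_⟩
        have hsub : ∀ X : Finset V, X ⊆ W' → r ^ X.card * Q G f (W' \ X) ≤ Q G f W' := by
          intro X
          induction X using Finset.induction_on with
          | empty => intro _; simp
          | insert x X hx ihX =>
            intro hXW
            have hX' : X ⊆ W' := (Finset.subset_insert x X).trans hXW
            have hxW : x ∈ W' \ X := Finset.mem_sdiff.2 ⟨hXW (Finset.mem_insert_self _ _), hx⟩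
            have hcX : (W' \ X).card ≤ m := (Finset.card_le_card Finset.sdiff_subset).trans hc
            have h1 := (ih (W' \ X) hcX).2 x hxW
            have e : W' \ insert x X = (W' \ X).erase x := by
              ext y
              simp only [Finset.mem_sdiff, Finset.mem_insert, Finset.mem_erase]
              tauto
            rw [Finset.card_insert_of_notMem hx, e, pow_succ]
            calc r ^ X.card * r * Q G f ((W' \ X).erase x)
                = r ^ X.card * (r * Q G f ((W' \ X).erase x)) := by ring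
              _ ≤ r ^ X.card * Q G f (W' \ X) :=
                  mul_le_mul_of_nonneg_left h1 (pow_nonneg hr0.le _)
              _ ≤ Q G f W' := ihX hX'
        have h2 := hsub (W' ∩ nb G v) Finset.inter_subset_left
        have e2 : W' \ (W' ∩ nb G v) = W' \ nb G v := by
          ext y
          simp only [Finset.mem_sdiff, Finset.mem_inter]
          tauto
        rw [e2] at h2
        have hcard : (W' ∩ nb G v).card ≤ n :=
          (Finset.card_le_card Finset.inter_subset_right).trans (hdeg v)
        have hpow : 1 / 2 ≤ r ^ (W' ∩ nb G v).card :=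
          hrn.trans (pow_le_pow_of_le_one hr0.le hr1 hcard)
        have hposn : 0 < Q G f (W' \ nb G v) :=
          (ih _ ((Finset.card_le_card Finset.sdiff_subset).trans hc)).1
        have h3 : Q G f (W' \ nb G v) ≤ 2 * Q G f W' := by
          have := mul_le_mul_of_nonneg_right hpow hposn.le
          linarith
        have h4 : f v * Q G f (W' \ nb G v) ≤ 1 / (4 * n) * (2 * Q G f W') :=
          mul_le_mul (hf' v) h3 hposn.le (by positivity)
        rw [Q_erase G f hv, ← hW']
        have e3 : 1 / (4 * (n:ℝ)) * (2 * Q G f W') = (1 - r) * Q G f W' := by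
          rw [hr]
          field_simp
          ring
        rw [e3] at h4
        linarith
      refine ⟨?_, fun v hv => (hstep v hv).2⟩
      rcases W.eq_empty_or_nonempty with rfl | ⟨v, hv⟩
      · rw [Q_empty]; exact one_pos
      · have := hstep v hv
        have h5 := mul_pos hr0 this.1
        linarith
  intro W
  exact (main _ W le_rfl).1

end Shearer

section Game

variable {V : Type*} [Fintype V] [DecidableEq V]

lemma deg_insert (M : Finset (Sym2 V)) {e : Sym2 V} (he : e ∉ M) (v : V) :
    deg (insert e M) v = deg M v + if v ∈ e then 1 else 0 := by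
  unfold deg
  rw [Finset.filter_insert]
  split_ifs with h
  · rw [Finset.card_insert_of_notMem]
    intro h2
    exact he (Finset.mem_filter.1 h2).1
  · simp

lemma deg_union {M B : Finset (Sym2 V)} (h : Disjoint M B) (v : V) :
    deg (M ∪ B) v = deg M v + deg B v := by
  unfold deg
  rw [Finset.filter_union, Finset.card_union_of_disjoint]
  exact Finset.disjoint_filter_filter h

variable (G : SimpleGraph V)

/-- The edge `e` of `G` is unclaimed. -/
def Free (M B : Finset (Sym2 V)) (e : Sym2 V) : Prop := e ∈ G.edgeSet ∧ e ∉ M ∧ e ∉ B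

/-- Some unclaimed edge contains `v`. -/
def Alive (M B : Finset (Sym2 V)) (v : V) : Prop := ∃ e, Free G M B e ∧ v ∈ e

open Classical in
/-- The weight of a vertex. -/
noncomputable def wt (f0 x y : ℝ) (M B : Finset (Sym2 V)) (v : V) : ℝ :=
  if Alive G M B v then f0 * x ^ deg M v * y ^ deg B v else 0

lemma wt_nonneg {f0 x y : ℝ} (h0 : 0 ≤ f0) (hx : 0 ≤ x) (hy : 0 ≤ y)
    (M B : Finset (Sym2 V)) (v : V) : 0 ≤ wt G f0 x y M B v := by
  unfold wt
  split_ifs
  · positivity
  · exact le_rfl

lemma wt_le {f0 x y : ℝ} (h0 : 0 ≤ f0) (hx : 0 ≤ x) (hy : 0 ≤ y)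
    {M B : Finset (Sym2 V)} {e e' : Sym2 V} (he : Free G M B e)
    (he' : Free G (insert e M) B e') (v : V) :
    wt G f0 x y (insert e M) (insert e' B) v ≤
      wt G f0 x y M B v * (if v ∈ e then x else 1) * (if v ∈ e' then y else 1) := by
  have hr : 0 ≤ wt G f0 x y M B v * (if v ∈ e then x else 1) * (if v ∈ e' then y else 1) := by
    have := wt_nonneg G h0 hx hy M B v
    apply mul_nonneg (mul_nonneg this _)
    · split_ifs
      · exact hy
      · exact zero_le_one
    · split_ifs
      · exact hx
      · exact zero_le_one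
  by_cases h : Alive G (insert e M) (insert e' B) v
  · have h' : Alive G M B v := by
      obtain ⟨e1, ⟨h1, h2, h3⟩, h4⟩ := h
      exact ⟨e1, ⟨h1, fun h => h2 (Finset.mem_insert_of_mem h),
        fun h => h3 (Finset.mem_insert_of_mem h)⟩, h4⟩
    unfold wt
    rw [if_pos h, if_pos h', deg_insert M he.2.1, deg_insert B he'.2.2]
    apply le_of_eq
    split_ifs <;> ring
  · unfold wt at hr ⊢
    rw [if_neg h]
    exact hr

lemma wt_dead {f0 x y : ℝ} {M B : Finset (Sym2 V)} {e' : Sym2 V} {v : V}
    (h : ¬ Alive G M B v) : wt G f0 x y M (insert e' B) v = 0 := by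
  unfold wt
  rw [if_neg]
  rintro ⟨e1, ⟨h1, h2, h3⟩, h4⟩
  exact h ⟨e1, ⟨h1, h2, fun h => h3 (Finset.mem_insert_of_mem h)⟩, h4⟩

/-- Breaker's invariant. -/
structure Inv (f0 x y : ℝ) (K : ℕ) (M B : Finset (Sym2 V)) : Prop where
  reg : R G (wt G f0 x y M B)
  degs : ∀ v, deg M v ≤ K
  subM : ∀ e ∈ M, e ∈ G.edgeSet
  subB : ∀ e ∈ B, e ∈ G.edgeSet
  disj : Disjoint M B

lemma Q_singleton (f : V → ℝ) (v : V) : Q G f {v} = 1 - f v := by
  have := Q_insert G f (v := v) (W := ∅) (Finset.notMem_empty v)
  rw [Finset.empty_sdiff, Q_empty, insert_empty_eq] at this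
  rw [this]
  ring

variable {G}

lemma deg_lt {f0 x y : ℝ} {K n : ℕ} (h0 : 0 ≤ f0) (hx : 0 ≤ x) (hy : 0 ≤ y) (hy1 : y ≤ 1)
    (hdeg : ∀ S : Finset (Sym2 V), (∀ e ∈ S, e ∈ G.edgeSet) → ∀ v, deg S v ≤ n)
    (hK : 1 ≤ f0 * x ^ K * y ^ (n - K)) {M B : Finset (Sym2 V)}
    (hI : Inv G f0 x y K M B) {v : V} (hv : Alive G M B v) : deg M v < K := by
  rcases (hI.degs v).lt_or_eq with h | h
  · exact h
  · exfalso
    have h1 := hI.reg {v}
    rw [Q_singleton] at h1
    have h2 : deg M v + deg B v ≤ n := by
      rw [← deg_union hI.disj]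
      apply hdeg
      intro e he
      rcases Finset.mem_union.1 he with he | he
      · exact hI.subM e he
      · exact hI.subB e he
    have h3 : y ^ (n - K) ≤ y ^ deg B v := pow_le_pow_of_le_one hy hy1 (by omega)
    have h4 : wt G f0 x y M B v = f0 * x ^ K * y ^ deg B v := by
      unfold wt
      rw [if_pos hv, h]
    have h5 := mul_le_mul_of_nonneg_left h3 (mul_nonneg h0 (pow_nonneg hx K))
    rw [h4] at h1
    linarith

lemma degs_insert {f0 x y : ℝ} {K n : ℕ} (h0 : 0 ≤ f0) (hx : 0 ≤ x) (hy : 0 ≤ y) (hy1 : y ≤ 1)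
    (hdeg : ∀ S : Finset (Sym2 V), (∀ e ∈ S, e ∈ G.edgeSet) → ∀ v, deg S v ≤ n)
    (hK : 1 ≤ f0 * x ^ K * y ^ (n - K)) {M B : Finset (Sym2 V)}
    (hI : Inv G f0 x y K M B) {e : Sym2 V} (he : Free G M B e) (v : V) :
    deg (insert e M) v ≤ K := by
  rw [deg_insert M he.2.1]
  split_ifs with h
  · have := deg_lt h0 hx hy hy1 hdeg hK hI ⟨e, he, h⟩
    omega
  · have := hI.degs v
    omega

lemma reply {f0 x y : ℝ} {K n : ℕ} (h0 : 0 ≤ f0) (hx : 1 ≤ x) (hy : 0 ≤ y) (hy1 : y ≤ 1)
    (hxy : x * (1 + y) ≤ 2)
    (hdeg : ∀ S : Finset (Sym2 V), (∀ e ∈ S, e ∈ G.edgeSet) → ∀ v, deg S v ≤ n)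
    (hK : 1 ≤ f0 * x ^ K * y ^ (n - K)) {M B : Finset (Sym2 V)}
    (hI : Inv G f0 x y K M B) {e : Sym2 V} (he : Free G M B e)
    (hex : ∃ e', Free G (insert e M) B e') :
    ∃ e', Free G (insert e M) B e' ∧ Inv G f0 x y K (insert e M) (insert e' B) := by
  have hx0 : 0 ≤ x := zero_le_one.trans hx
  have hfin : ∀ e', Free G (insert e M) B e' → R G (wt G f0 x y (insert e M) (insert e' B)) →
      ∃ e', Free G (insert e M) B e' ∧ Inv G f0 x y K (insert e M) (insert e' B) := by
    intro e' he' hR
    refine ⟨e', he', hR, degs_insert h0 hx0 hy hy1 hdeg hK hI he, ?_, ?_, ?_⟩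
    · intro a ha
      rcases Finset.mem_insert.1 ha with rfl | ha
      · exact he.1
      · exact hI.subM a ha
    · intro a ha
      rcases Finset.mem_insert.1 ha with rfl | ha
      · exact he'.1
      · exact hI.subB a ha
    · rw [Finset.disjoint_insert_right]
      refine ⟨he'.2.1, ?_⟩
      rw [Finset.disjoint_insert_left]
      exact ⟨he.2.2, hI.disj⟩
  have hw := wt_nonneg G h0 hx0 hy M B
  have hxy1 : x * y ≤ 1 := by nlinarith
  -- a reply containing every endpoint of e that is still alive
  have hall : ∀ e', Free G (insert e M) B e' →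
      (∀ v ∈ e, Alive G (insert e M) B v → v ∈ e') →
      ∃ e', Free G (insert e M) B e' ∧ Inv G f0 x y K (insert e M) (insert e' B) := by
    intro e' he' hc
    apply hfin e' he'
    apply R_mono G hI.reg
    intro v
    by_cases hv : v ∈ e
    · by_cases hA : Alive G (insert e M) B v
      · have h1 := wt_le G h0 hx0 hy he he' v
        rw [if_pos hv, if_pos (hc v hv hA)] at h1
        have h2 := mul_le_mul_of_nonneg_left hxy1 (hw v)
        linarith
      · rw [wt_dead G hA]
        exact hw v
    · have h1 := wt_le G h0 hx0 hy he he' v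
      rw [if_neg hv] at h1
      have h2 : (if v ∈ e' then y else 1) ≤ 1 := by
        split_ifs
        · exact hy1
        · exact le_rfl
      have h3 := mul_le_mul_of_nonneg_left h2 (hw v)
      linarith
  obtain ⟨e0, he0⟩ := hex
  revert he hall hfin e0 he0
  induction e using Sym2.ind with
  | _ a b =>
    intro he hfin hall e0 he0
    have hab : G.Adj a b := he.1
    by_cases hA : Alive G (insert s(a, b) M) B a
    · by_cases hB : Alive G (insert s(a, b) M) B b
      · obtain ⟨e1, he1, ha1⟩ := hA
        obtain ⟨e2, he2, hb2⟩ := hB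
        set w := wt G f0 x y M B with hwdef
        set g₁ : V → ℝ := fun v => w v * (if v ∈ s(a, b) then x else 1) *
          (if v = a then y else 1) with hg1
        set g₂ : V → ℝ := fun v => w v * (if v ∈ s(a, b) then x else 1) *
          (if v = b then y else 1) with hg2
        have hne : a ≠ b := hab.ne
        have e1a : g₁ a = w a * x * y := by simp [hg1]
        have e1b : g₁ b = w b * x := by simp [hg1, hne.symm]
        have e2a : g₂ a = w a * x := by simp [hg2, hne]
        have e2b : g₂ b = w b * x * y := by simp [hg2]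
        have h1 : ∀ v, v ≠ a → v ≠ b → g₁ v = w v := by
          intro v hva hvb
          simp [hg1, hva, hvb]
        have h2 : ∀ v, v ≠ a → v ≠ b → g₂ v = w v := by
          intro v hva hvb
          simp [hg2, hva, hvb]
        have hwx : ∀ v, 0 ≤ w v * x := fun v => mul_nonneg (hw v) hx0
        have hwxy : ∀ v, 0 ≤ w v * x * y := fun v => mul_nonneg (hwx v) hy
        have hs := R_step G hw hI.reg hab h1 h2 (e1a ▸ hwxy a) (e1b ▸ hwx b) (e2a ▸ hwx a)
          (e2b ▸ hwxy b)
          (by rw [e1a, e2a]; have := mul_le_mul_of_nonneg_left hxy (hw a); linarith)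
          (by rw [e1b, e2b]; have := mul_le_mul_of_nonneg_left hxy (hw b); linarith)
        have hcmp : ∀ (c : V) (e' : Sym2 V), c ∈ e' → ∀ v : V,
            (if v ∈ e' then y else 1) ≤ (if v = c then y else 1) := by
          intro c e' hc v
          by_cases hv : v = c
          · rw [if_pos hv, if_pos (hv ▸ hc)]
          · rw [if_neg hv]
            split_ifs
            · exact hy1
            · exact le_rfl
        have hnn : ∀ v, 0 ≤ w v * (if v ∈ s(a, b) then x else 1) := by
          intro v
          apply mul_nonneg (hw v)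
          split_ifs
          · exact hx0
          · exact zero_le_one
        rcases hs with hs | hs
        · apply hfin e1 he1
          apply R_mono G hs
          intro v
          exact (wt_le G h0 hx0 hy he he1 v).trans
            (mul_le_mul_of_nonneg_left (hcmp a e1 ha1 v) (hnn v))
        · apply hfin e2 he2
          apply R_mono G hs
          intro v
          exact (wt_le G h0 hx0 hy he he2 v).trans
            (mul_le_mul_of_nonneg_left (hcmp b e2 hb2 v) (hnn v))
      · obtain ⟨e1, he1, ha1⟩ := hA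
        apply hall e1 he1
        intro v hv hAv
        rcases Sym2.mem_iff.1 hv with rfl | rfl
        · exact ha1
        · exact absurd hAv hB
    · by_cases hB : Alive G (insert s(a, b) M) B b
      · obtain ⟨e2, he2, hb2⟩ := hB
        apply hall e2 he2
        intro v hv hAv
        rcases Sym2.mem_iff.1 hv with rfl | rfl
        · exact absurd hAv hA
        · exact hb2
      · apply hall e0 he0
        intro v hv hAv
        rcases Sym2.mem_iff.1 hv with rfl | rfl
        · exact absurd hAv hA
        · exact absurd hAv hB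

lemma no_force {f0 x y : ℝ} {K n d : ℕ} (h0 : 0 ≤ f0) (hx : 1 ≤ x) (hy : 0 ≤ y) (hy1 : y ≤ 1)
    (hxy : x * (1 + y) ≤ 2)
    (hdeg : ∀ S : Finset (Sym2 V), (∀ e ∈ S, e ∈ G.edgeSet) → ∀ v, deg S v ≤ n)
    (hK : 1 ≤ f0 * x ^ K * y ^ (n - K)) (hd : K < d)
    {t : Bool} {M B : Finset (Sym2 V)} (hF : Forces G d t M B) :
    (t = true → Inv G f0 x y K M B → False) ∧
    (t = false → ∀ M0 e, M = insert e M0 → Free G M0 B e → Inv G f0 x y K M0 B → False) := by
  have hx0 : 0 ≤ x := zero_le_one.trans hx
  induction hF with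
  | finished t M B hall hv =>
    obtain ⟨v, hv⟩ := hv
    refine ⟨?_, ?_⟩
    · intro _ hI
      have := hI.degs v
      omega
    · rintro _ M0 e rfl he hI
      have := degs_insert h0 hx0 hy hy1 hdeg hK hI he v
      omega
  | maker M B e he hfree _ ih =>
    refine ⟨?_, by simp⟩
    intro _ hI
    rw [Finset.mem_union, not_or] at hfree
    exact ih.2 rfl M e rfl ⟨he, hfree.1, hfree.2⟩ hI
  | breaker M B hex _ ih =>
    refine ⟨by simp, ?_⟩
    rintro _ M0 e rfl he hI
    obtain ⟨e1, h1, h2⟩ := hex
    rw [Finset.mem_union, not_or] at h2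
    obtain ⟨e', he', hI'⟩ := reply h0 hx hy hy1 hxy hdeg hK hI he ⟨e1, h1, h2.1, h2.2⟩
    refine (ih e' he'.1 ?_).1 rfl hI'
    rw [Finset.mem_union, not_or]
    exact ⟨he'.2.1, he'.2.2⟩

lemma deg_le_degree [DecidableRel G.Adj] (S : Finset (Sym2 V)) (hS : ∀ e ∈ S, e ∈ G.edgeSet)
    (v : V) : deg S v ≤ G.degree v := by
  classical
  rw [← G.card_incidenceFinset_eq_degree]
  apply Finset.card_le_card
  intro e he
  rw [Finset.mem_filter] at he
  rw [SimpleGraph.mem_incidenceFinset]
  exact ⟨hS e he.1, he.2⟩

/-- The main bound for one graph. -/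
lemma bound {x y : ℝ} {K n d : ℕ} (hn : 1 ≤ n) (hx : 1 ≤ x) (hy : 0 ≤ y) (hy1 : y ≤ 1)
    (hxy : x * (1 + y) ≤ 2) (hK : 1 ≤ 1 / (4 * n) * x ^ K * y ^ (n - K))
    [DecidableRel G.Adj] (hG : G.IsRegularOfDegree n) (hF : Forces G d true ∅ ∅) : d ≤ K := by
  by_contra hd
  rw [not_le] at hd
  have hdeg : ∀ S : Finset (Sym2 V), (∀ e ∈ S, e ∈ G.edgeSet) → ∀ v, deg S v ≤ n := by
    intro S hS v
    exact (deg_le_degree S hS v).trans (hG v).le
  have h0 : (0:ℝ) ≤ 1 / (4 * n) := by positivity
  refine (no_force h0 hx hy hy1 hxy hdeg hK hd hF).1 rfl ?_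
  refine ⟨?_, ?_, by simp, by simp, by simp⟩
  · apply R_init G hn
    · intro v
      unfold wt
      split_ifs
      · simp [deg]
      · exact h0
    · intro v
      have h1 : nb G v = G.neighborFinset v := by
        ext u
        rw [mem_nb, SimpleGraph.mem_neighborFinset]
      rw [h1, SimpleGraph.card_neighborFinset_eq_degree, hG v]
  · intro v
    simp [deg]

lemma forces_le {d : ℕ} {t : Bool} {M B : Finset (Sym2 V)} (hF : Forces G d t M B) :
    (∀ e ∈ M, e ∈ G.edgeSet) →
    ∃ S : Finset (Sym2 V), (∀ e ∈ S, e ∈ G.edgeSet) ∧ ∃ v, d ≤ deg S v := by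
  induction hF with
  | finished t M B hall hv => exact fun h => ⟨M, h, hv⟩
  | maker M B e he hfree _ ih =>
    intro h
    apply ih
    intro a ha
    rcases Finset.mem_insert.1 ha with rfl | ha
    · exact he
    · exact h a ha
  | breaker M B hex _ ih =>
    intro h
    obtain ⟨e, he, he'⟩ := hex
    exact ih e he he' h

lemma forces_zero [Nonempty V] (k : ℕ) : ∀ (t : Bool) (M B : Finset (Sym2 V)),
    ((Finset.univ : Finset (Sym2 V)) \ (M ∪ B)).card ≤ k → Forces G 0 t M B := by
  induction k with
  | zero =>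
    intro t M B h
    apply Forces.finished
    · intro e _
      have h1 := Finset.card_eq_zero.1 (Nat.le_zero.1 h)
      by_contra hc
      have : e ∈ (Finset.univ : Finset (Sym2 V)) \ (M ∪ B) := by
        rw [Finset.mem_sdiff]
        exact ⟨Finset.mem_univ _, hc⟩
      rw [h1] at this
      exact absurd this (Finset.notMem_empty e)
    · exact ⟨Classical.arbitrary V, Nat.zero_le _⟩
  | succ k ih =>
    intro t M B h
    have hdec : ∀ (e : Sym2 V) (S : Finset (Sym2 V)), e ∉ M ∪ B → S = insert e (M ∪ B) →
        ((Finset.univ : Finset (Sym2 V)) \ S).card ≤ k := by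
      intro e S he hS
      have : ((Finset.univ : Finset (Sym2 V)) \ S) ⊂ (Finset.univ \ (M ∪ B)) := by
        rw [Finset.ssubset_iff_of_subset]
        · refine ⟨e, Finset.mem_sdiff.2 ⟨Finset.mem_univ _, he⟩, ?_⟩
          rw [hS]
          simp
        · rw [hS]
          exact Finset.sdiff_subset_sdiff le_rfl (Finset.subset_insert _ _)
      have := Finset.card_lt_card this
      omega
    by_cases hex : ∃ e ∈ G.edgeSet, e ∉ M ∪ B
    · cases t with
      | true =>
        obtain ⟨e, he, he'⟩ := hex
        apply Forces.maker M B e he he'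
        apply ih
        apply hdec e _ he'
        rw [Finset.insert_union]
      | false =>
        apply Forces.breaker M B hex
        intro e he he'
        apply ih
        apply hdec e _ he'
        rw [Finset.union_insert]
    · push Not at hex
      exact Forces.finished t M B hex ⟨Classical.arbitrary V, Nat.zero_le _⟩

end Game

section Extremal

lemma D_greatest {V : Type*} [Fintype V] [DecidableEq V] [Nonempty V] (G : SimpleGraph V) :
    IsGreatest {d : ℕ | Forces G d true ∅ ∅} (D G) := by
  have hb : BddAbove {d : ℕ | Forces G d true ∅ ∅} := by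
    refine ⟨(Finset.univ : Finset (Sym2 V)).card, ?_⟩
    intro d hd
    obtain ⟨S, _, v, hv⟩ := forces_le hd (by simp)
    exact hv.trans ((Finset.card_filter_le _ _).trans (Finset.card_le_card (Finset.subset_univ _)))
  have hne : {d : ℕ | Forces G d true ∅ ∅}.Nonempty :=
    ⟨0, forces_zero _ true ∅ ∅ le_rfl⟩
  exact ⟨Nat.sSup_mem hne hb, fun d hd => le_csSup hb hd⟩

lemma D_le {V : Type*} [Fintype V] [DecidableEq V] [Nonempty V] {n : ℕ} {G : SimpleGraph V}
    [DecidableRel G.Adj] (hG : G.IsRegularOfDegree n) : D G ≤ n := by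
  obtain ⟨S, hS, v, hv⟩ := forces_le (D_greatest G).1 (by simp)
  exact hv.trans ((deg_le_degree S hS v).trans (hG v).le)

lemma values_bdd (n : ℕ) : BddAbove (values n) := by
  refine ⟨n, ?_⟩
  rintro k ⟨V, _, _, _, G, _, hG, rfl⟩
  exact D_le hG

lemma values_nonempty (n : ℕ) : (values n).Nonempty := by
  refine ⟨_, Fin (n + 1), inferInstance, inferInstance, inferInstance, ⊤, inferInstance, ?_, rfl⟩
  intro v
  have h := SimpleGraph.complete_graph_degree v
  rw [Fintype.card_fin, Nat.add_sub_cancel] at h
  convert h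

lemma f_lub (n : ℕ) : IsLUB (values n) (f n) := isLUB_csSup (values_nonempty n) (values_bdd n)

lemma f_le {x y : ℝ} {K n : ℕ} (hn : 1 ≤ n) (hx : 1 ≤ x) (hy : 0 ≤ y) (hy1 : y ≤ 1)
    (hxy : x * (1 + y) ≤ 2) (hK : 1 ≤ 1 / (4 * n) * x ^ K * y ^ (n - K)) : f n ≤ K := by
  apply csSup_le (values_nonempty n)
  rintro k ⟨V, _, _, _, G, _, hG, rfl⟩
  exact bound hn hx hy hy1 hxy hK hG (D_greatest G).1

lemma f_le_self (n : ℕ) : f n ≤ n := by
  apply csSup_le (values_nonempty n)
  rintro k ⟨V, _, _, _, G, _, hG, rfl⟩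
  exact D_le hG

lemma asymptotic {c : ℝ} (hc : 2 / 3 < c) : ∃ N : ℕ, ∀ n : ℕ, N ≤ n → (f n : ℝ) ≤ c * n := by
  rcases le_or_gt 1 c with hc1 | hc1
  · refine ⟨0, fun n _ => ?_⟩
    have h1 : (f n : ℝ) ≤ n := by exact_mod_cast f_le_self n
    have h2 : (0:ℝ) ≤ n := Nat.cast_nonneg n
    nlinarith
  · set s : ℝ := (3 * c - 2) / (4 * c) with hs
    have hcpos : 0 < c := by linarith
    have hs0 : 0 < s := div_pos (by linarith) (by linarith)
    have hs1 : s < 1 / 4 := by
      rw [hs, div_lt_div_iff₀ (by linarith) (by norm_num)]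
      linarith
    have hsc : 4 * c * s = 3 * c - 2 := by
      rw [hs]
      field_simp
    set x : ℝ := 1 / (1 - s) with hx
    set y : ℝ := 1 - 2 * s with hy
    have h1s : 0 < 1 - s := by linarith
    have hx1 : 1 ≤ x := by
      rw [hx, le_div_iff₀ h1s]
      linarith
    have hx0 : 0 < x := by linarith
    have hy0 : 0 < y := by linarith
    have hy1 : y ≤ 1 := by linarith
    have hxy : x * (1 + y) ≤ 2 := by
      rw [hx, hy]
      have : 1 / (1 - s) * (1 + (1 - 2 * s)) = 2 := by
        field_simp
        ring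
      exact this.le
    set A : ℝ := Real.log x with hA
    set B : ℝ := - Real.log y with hB
    have hAs : s ≤ A := by
      have h := Real.log_le_sub_one_of_pos h1s
      have h2 : A = - Real.log (1 - s) := by rw [hA, hx, one_div, Real.log_inv]
      linarith
    have hBs : B * y ≤ 2 * s := by
      have h := Real.one_sub_inv_le_log_of_pos hy0
      have h2 : B ≤ y⁻¹ - 1 := by linarith
      have h3 := mul_le_mul_of_nonneg_right h2 hy0.le
      have h4 : (y⁻¹ - 1) * y = 2 * s := by
        rw [sub_mul, inv_mul_cancel₀ hy0.ne', hy]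
        ring
      linarith
    have hB0 : 0 ≤ B := by
      rw [hB]
      have := Real.log_nonpos hy0.le hy1
      linarith
    have hA0 : 0 ≤ A := by linarith
    set δ : ℝ := c * A - (1 - c) * B with hδ
    have hδ0 : 0 < δ := by
      have h1 : 0 < δ * y := by
        have e : δ * y = c * (A * y) - (1 - c) * (B * y) := by rw [hδ]; ring
        rw [e]
        have h2 := mul_le_mul_of_nonneg_right hAs hy0.le
        have h3 := mul_le_mul_of_nonneg_left h2 hcpos.le
        have h4 := mul_le_mul_of_nonneg_left hBs (by linarith : 0 ≤ 1 - c)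
        have h5 : c * (s * y) - (1 - c) * (2 * s) = s * ((3 * c - 2) - 2 * c * s) := by
          rw [hy]
          ring
        have h6 : 0 < s * ((3 * c - 2) - 2 * c * s) := by
          apply mul_pos hs0
          nlinarith
        linarith
      exact (pos_iff_pos_of_mul_pos h1).2 hy0
    have hlog : ∀ᶠ t : ℝ in Filter.atTop, ‖Real.log t‖ ≤ δ / 8 * ‖t‖ :=
      (Real.isLittleO_log_id_atTop).def (by linarith)
    obtain ⟨T, hT⟩ := Filter.eventually_atTop.1 hlog
    obtain ⟨N1, hN1⟩ := exists_nat_ge T
    obtain ⟨N2, hN2⟩ := exists_nat_ge (2 * (A + B) / δ)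
    refine ⟨N1 + N2 + 1, fun n hn => ?_⟩
    have hn1 : 1 ≤ n := by omega
    have hnr : (1:ℝ) ≤ n := by exact_mod_cast hn1
    have hnN1 : (N1:ℝ) ≤ n := by exact_mod_cast (by omega : N1 ≤ n)
    have hnN2 : (N2:ℝ) ≤ n := by exact_mod_cast (by omega : N2 ≤ n)
    set K : ℕ := ⌊c * n⌋₊ with hK
    have hcn : 0 ≤ c * n := by positivity
    have hK1 : (K:ℝ) ≤ c * n := Nat.floor_le hcn
    have hK2 : c * n < K + 1 := Nat.lt_floor_add_one _
    have hKn : K ≤ n := by
      have h1 : (K:ℝ) ≤ n := by nlinarith
      exact_mod_cast h1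
    have hcast : ((n - K : ℕ) : ℝ) = n - K := by
      rw [Nat.cast_sub hKn]
    have hfin : f n ≤ K := by
      apply f_le hn1 hx1 hy0.le hy1 hxy
      have hpos : 0 < 1 / (4 * (n:ℝ)) * x ^ K * y ^ (n - K) := by positivity
      rw [← Real.log_nonneg_iff hpos]
      have h4n : (0:ℝ) < 4 * n := by positivity
      rw [Real.log_mul (by positivity) (by positivity), Real.log_mul (by positivity)
        (by positivity), Real.log_pow, Real.log_pow, one_div, Real.log_inv, hcast, ← hA]
      have e1 : Real.log y = - B := by rw [hB]; ring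
      rw [e1]
      have h1 := hT (4 * n) (by linarith)
      rw [Real.norm_eq_abs, Real.norm_eq_abs, abs_of_pos h4n] at h1
      have h2 : Real.log (4 * n) ≤ δ / 8 * (4 * n) := (le_abs_self _).trans h1
      have h3 : 2 * (A + B) ≤ δ * n := by
        have h5 : 2 * (A + B) / δ ≤ n := hN2.trans hnN2
        rw [div_le_iff₀ hδ0] at h5
        linarith
      have h4 : (c * n - 1) * A ≤ K * A := mul_le_mul_of_nonneg_right (by linarith) hA0
      have h5 : ((n:ℝ) - K) * B ≤ (n - c * n + 1) * B :=
        mul_le_mul_of_nonneg_right (by linarith) hB0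
      have h6 : δ * n = c * n * A - (1 - c) * n * B := by rw [hδ]; ring
      nlinarith
    calc (f n : ℝ) ≤ K := by exact_mod_cast hfin
      _ ≤ c * n := hK1

end Extremal

/-- For every finite nonempty graph `D G` is indeed the largest `d` that Maker can force, `f n` is
the least upper bound of the `D G` over all finite `n`-regular graphs, and
`f n ≤ c * n` for all large `n`, for every `c > 2/3`; in particular for some `c < 3/4`. -/
theorem result :
    (∀ (V : Type) [Fintype V] [DecidableEq V] [Nonempty V] (G : SimpleGraph V),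
      IsGreatest {d : ℕ | Forces G d true ∅ ∅} (D G)) ∧
    (∀ n : ℕ, IsLUB (values n) (f n)) ∧
    (∀ c : ℝ, 2 / 3 < c → ∃ N : ℕ, ∀ n : ℕ, N ≤ n → (f n : ℝ) ≤ c * n) ∧
    (∃ c : ℝ, c < 3 / 4 ∧ ∃ N : ℕ, ∀ n : ℕ, N ≤ n → (f n : ℝ) ≤ c * n) :=
  ⟨fun _ => D_greatest, f_lub, fun _ hc => asymptotic hc,
    7 / 10, by norm_num, asymptotic (by norm_num)⟩

end Pool.Agent.Results.MP_0dac36_co.DegreeGame
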